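import Pool.Agent.Lib.MP_7b6720_al.INV.H44.Three

set_option autoImplicit false

/-!
# CON: one contraction step
-/

namespace Pool.Agent.SymDiam.H44

open Equiv Finset

theorem con (hs : SuppS) : ConS := by
  intro n hn W hW z hz hzn
  have hn' : (100 : ℝ) ≤ (n : ℝ) := by exact_mod_cast hn
  have hex : ∃ a, z a ≠ a := by
    by_contra hc
    push Not at hc
    exact hz (Equiv.ext hc)
  obtain ⟨a, ha⟩ := hex
  have haS : a ∈ z.support := Perm.mem_support.mpr ha
  have hfex : ∃ f, z f = f := by
    by_contra hc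
    push Not at hc
    have : z.support = univ := by
      ext x
      rw [Perm.mem_support]
      simp [hc x]
    rw [this, card_univ, Fintype.card_fin] at hzn
    exact lt_irrefl _ hzn
  obtain ⟨f, hf⟩ := hfex
  have hfS : f ∉ z.support := Perm.notMem_support.mpr hf
  have haf : a ≠ f := fun h => hfS (h ▸ haS)
  set s : ℝ := (z.support.card : ℝ) with hsdef
  have hs0 : 0 ≤ s := by rw [hsdef]; positivity
  have hn0 : (0 : ℝ) < n := by linarith
  have hn1 : (0 : ℝ) < (n : ℝ) - 1 := by linarith
  have hn2 : (0 : ℝ) < (n : ℝ) - 2 := by linarith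
  set e := duo a (z a) ha.symm with he
  set e' := duo a f haf with he'
  have hlow := hW.lower 2 (by norm_num) e e'
  rw [desc_two n (by omega)] at hlow
  have hpos : 0 < wt W e e' := by
    refine lt_of_lt_of_le ?_ hlow
    apply div_pos _ (mul_pos hn0 hn1)
    rw [sub_pos, div_lt_one hn0]; linarith
  set T1 : ℝ := s ^ 2 * ((n : ℝ) + 1) / (((n : ℝ) - 1) * ((n : ℝ) - 2)) with hT1
  have hT10 : 0 ≤ T1 := by rw [hT1]; positivity
  have hK0 : 0 ≤ (1 + 1 / (n : ℝ)) / ((n : ℝ) * ((n : ℝ) - 1) * ((n : ℝ) - 2)) := by positivity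
  -- pairs (x, y) with x not a
  have hpair : ∀ x ∈ z.support.erase a, ∀ y ∈ z.support,
      (∑ h, if Maps e e' h ∧ h x = y then W h else 0) ≤
        (1 + 1 / (n : ℝ)) / ((n : ℝ) * ((n : ℝ) - 1) * ((n : ℝ) - 2)) := by
    intro x hx y hy
    have hxa : x ≠ a := (mem_erase.mp hx).1
    have hyf : y ≠ f := fun h => hfS (h ▸ hy)
    by_cases hcase : y = a ∨ x = z a
    · have : (∑ h, if Maps e e' h ∧ h x = y then W h else 0) = 0 := by
        refine sum_eq_zero fun h _ => ?_
        rw [if_neg]
        rintro ⟨h1, h2⟩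
        rw [he, he', maps_duo] at h1
        rcases hcase with hya | hxz
        · apply hxa
          apply h.injective
          rw [h1.1, h2, hya]
        · apply hyf
          rw [← h2, hxz, h1.2]
      rw [this]
      exact hK0
    · push Not at hcase
      have h1 := hW.upper 3 le_rfl (tri a (z a) x ha.symm hxa.symm hcase.2.symm)
        (tri a f y haf (Ne.symm hcase.1) hyf.symm)
      rw [desc_three n (by omega)] at h1
      refine le_trans (le_of_eq ?_) h1
      unfold wt
      refine sum_congr rfl fun h _ => ?_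
      simp only [he, he', maps_duo, maps_tri, and_assoc]
  -- the point a
  have hpt : (∑ y ∈ z.support, ∑ h, if Maps e e' h ∧ h a = y then W h else 0) = wt W e e' := by
    rw [sum_eq_single_of_mem a haS]
    · unfold wt
      refine sum_congr rfl fun h _ => ?_
      have : (Maps e e' h ∧ h a = a) ↔ Maps e e' h := by
        constructor
        · exact fun h => h.1
        · intro hm
          refine ⟨hm, ?_⟩
          rw [he, he', maps_duo] at hm
          exact hm.1
      simp only [this]
    · intro y _ hya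
      refine sum_eq_zero fun h _ => ?_
      rw [if_neg]
      rintro ⟨h1, h2⟩
      rw [he, he', maps_duo] at h1
      exact hya (by rw [← h2, h1.1])
  have hsum : (∑ h, if Maps e e' h then
      W h * (((z.support).filter fun x => h x ∈ z.support).card : ℝ) else 0) ≤
      wt W e e' * (1 + T1) := by
    rw [sum_count W (fun h => Maps e e' h)]
    rw [← insert_erase haS, sum_insert (notMem_erase _ _), insert_erase haS, hpt]
    have h1 : (∑ x ∈ z.support.erase a, ∑ y ∈ z.support,
        ∑ h, if Maps e e' h ∧ h x = y then W h else 0) ≤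
        ∑ x ∈ z.support.erase a, ∑ y ∈ z.support,
          (1 + 1 / (n : ℝ)) / ((n : ℝ) * ((n : ℝ) - 1) * ((n : ℝ) - 2)) :=
      sum_le_sum fun x hx => sum_le_sum fun y hy => hpair x hx y hy
    rw [sum_const, sum_const, nsmul_eq_mul, nsmul_eq_mul] at h1
    have h2 : ((z.support.erase a).card : ℝ) ≤ s := by
      rw [hsdef]
      exact_mod_cast card_le_card (erase_subset _ _)
    have h3 : (1 - 1 / (n : ℝ)) / ((n : ℝ) * ((n : ℝ) - 1)) * T1 ≤ wt W e e' * T1 :=
      mul_le_mul_of_nonneg_right hlow hT10
    have h4' : (1 - 1 / (n : ℝ)) / ((n : ℝ) * ((n : ℝ) - 1)) * T1 =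
        s * (s * ((1 + 1 / (n : ℝ)) / ((n : ℝ) * ((n : ℝ) - 1) * ((n : ℝ) - 2)))) := by
      rw [hT1]
      field_simp
    rw [h4'] at h3
    have h5 : ((z.support.erase a).card : ℝ) * ((z.support.card : ℝ) *
        ((1 + 1 / (n : ℝ)) / ((n : ℝ) * ((n : ℝ) - 1) * ((n : ℝ) - 2)))) ≤
        s * (s * ((1 + 1 / (n : ℝ)) / ((n : ℝ) * ((n : ℝ) - 1) * ((n : ℝ) - 2)))) := by
      rw [← hsdef]
      exact mul_le_mul_of_nonneg_right h2 (mul_nonneg hs0 hK0)
    rw [mul_add, mul_one]
    linarith
  obtain ⟨h, hWh, hm, hle⟩ := exists_le_of_avg hW e e' hpos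
    (fun h => (((z.support).filter fun x => h x ∈ z.support).card : ℝ)) (1 + T1) hsum
  rw [he, he', maps_duo] at hm
  obtain ⟨hm1, hm2⟩ := hm
  refine ⟨h, hWh, ?_, ?_⟩
  · -- the commutator is not trivial
    intro hcm
    unfold cm at hcm
    have hcomm : z * cj z h = cj z h * z := by
      have h6 := congrArg (fun g => g * (cj z h) * z) hcm
      simp only [one_mul] at h6
      rw [← h6]; group
    have h7 : cj z h (z a) = z a := by
      unfold cj
      rw [Perm.mul_apply, Perm.mul_apply, hm2, hf, Perm.inv_eq_iff_eq, hm2]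
    have h8 : z (cj z h a) = z a := by
      have := congrArg (fun g : Perm (Fin n) => g a) hcomm
      simp only [Perm.mul_apply] at this
      rw [this, h7]
    have h9 : cj z h a = a := z.injective h8
    unfold cj at h9
    rw [Perm.mul_apply, Perm.mul_apply, hm1, Perm.inv_eq_iff_eq, hm1] at h9
    exact ha h9
  · have h1 := (hs n z (cj z h)).1
    have hI : z.support ∩ (cj z h).support = z.support.filter fun x => h x ∈ z.support := by
      ext x
      rw [mem_inter, support_cj, mem_filter]
    rw [hI] at h1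
    have h1' : ((cm z h).support.card : ℝ) ≤
        3 * ((z.support.filter fun x => h x ∈ z.support).card : ℝ) := by
      unfold cm
      exact_mod_cast h1
    refine h1'.trans ?_
    have h2 : 3 * ((z.support.filter fun x => h x ∈ z.support).card : ℝ) ≤ 3 * (1 + T1) := by
      linarith
    refine h2.trans ?_
    have h3 : 3 * T1 ≤ 4 * s ^ 2 / (n : ℝ) := by
      rw [hT1, ← mul_div_assoc, div_le_div_iff₀ (mul_pos hn1 hn2) hn0]
      have h10 : 3 * ((n : ℝ) + 1) * (n : ℝ) ≤ 4 * (((n : ℝ) - 1) * ((n : ℝ) - 2)) := by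
        nlinarith
      nlinarith [mul_le_mul_of_nonneg_left h10 (sq_nonneg s)]
    linarith

end Pool.Agent.SymDiam.H44
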