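import Pool.Agent.Lib.MP_7b6720_al.INV.Ball

set_option autoImplicit false

/-!
# EVEN: an even permutation is a product of at most n three-cycles
-/

namespace Pool.Agent.SymDiam.H44

open Equiv Finset

theorem even_aux {n : ℕ} (m : ℕ) : ∀ g : Perm (Fin n), g.support.card ≤ m →
    g ∈ alternatingGroup (Fin n) →
    ∃ l : List (Perm (Fin n)), l.length ≤ g.support.card ∧ (∀ y ∈ l, y.IsThreeCycle) ∧
      l.prod = g := by
  induction m with
  | zero =>
    intro g hg _
    have : g = 1 := by
      rw [← Perm.card_support_eq_zero]; omega
    exact ⟨[], by simp, by simp, by simp [this]⟩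
  | succ m ih =>
    intro g hg hA
    by_cases h1 : g = 1
    · exact ⟨[], by simp, by simp, by simp [h1]⟩
    have h2 : g.support.card ≠ 2 := by
      intro h2
      rw [Perm.card_support_eq_two] at h2
      have hs := h2.sign_eq
      rw [Perm.mem_alternatingGroup] at hA
      rw [hA] at hs
      exact absurd hs (by decide)
    have h3 : 2 < g.support.card := by
      have := Perm.two_le_card_support_of_ne_one h1
      omega
    have hex : ∃ a, g a ≠ a := by
      by_contra hc
      push Not at hc
      exact h1 (Equiv.ext hc)
    obtain ⟨a, ha⟩ := hex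
    set b := g a with hb
    have hbs : b ∈ g.support := by
      rw [Perm.mem_support]; intro h; exact ha (g.injective h)
    have has : a ∈ g.support := Perm.mem_support.mpr ha
    have hc : ∃ c ∈ g.support, c ≠ a ∧ c ≠ b := by
      by_contra hc
      push Not at hc
      have : g.support ⊆ {a, b} := by
        intro c hcs
        by_cases hca : c = a
        · simp [hca]
        · simp [hc c hcs hca]
      have h4 := card_le_card this
      have h5 : ({a, b} : Finset (Fin n)).card ≤ 2 := card_le_two
      omega
    obtain ⟨c, hcs, hca, hcb⟩ := hc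
    -- tau : a -> b -> c -> a
    set τ : Perm (Fin n) := swap a c * swap a b with hτ
    have hτ3 : τ.IsThreeCycle :=
      Perm.isThreeCycle_swap_mul_swap_same hca.symm ha.symm hcb
    have hτa : τ a = b := by
      rw [hτ, Perm.mul_apply, swap_apply_left, swap_apply_of_ne_of_ne ha hcb.symm]
    have hτo : ∀ x, x ≠ a → x ≠ b → x ≠ c → τ x = x := by
      intro x hxa hxb hxc
      rw [hτ, Perm.mul_apply, swap_apply_of_ne_of_ne hxa hxb, swap_apply_of_ne_of_ne hxa hxc]
    have hfix : (τ⁻¹ * g) a = a := by
      rw [Perm.mul_apply, Perm.inv_eq_iff_eq, hτa]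
    have hsub : (τ⁻¹ * g).support ⊆ g.support.erase a := by
      intro x hx
      rw [Perm.mem_support] at hx
      rw [mem_erase]
      refine ⟨fun h => hx (by rw [h]; exact hfix), ?_⟩
      by_contra hxs
      have hgx : g x = x := Perm.notMem_support.mp hxs
      apply hx
      rw [Perm.mul_apply, hgx, Perm.inv_eq_iff_eq]
      symm
      apply hτo
      · rintro rfl; exact hxs has
      · rintro rfl; exact hxs hbs
      · rintro rfl; exact hxs hcs
    have hcard : (τ⁻¹ * g).support.card + 1 ≤ g.support.card := by
      have h6 := card_le_card hsub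
      rw [card_erase_of_mem has] at h6
      omega
    have hτA : τ ∈ alternatingGroup (Fin n) := by
      rw [Perm.mem_alternatingGroup]; exact hτ3.sign
    obtain ⟨l, hl1, hl2, hl3⟩ := ih (τ⁻¹ * g) (by omega)
      (Subgroup.mul_mem _ (Subgroup.inv_mem _ hτA) hA)
    refine ⟨τ :: l, ?_, ?_, ?_⟩
    · rw [List.length_cons]; omega
    · intro y hy
      rcases List.mem_cons.mp hy with rfl | hy
      · exact hτ3
      · exact hl2 y hy
    · rw [List.prod_cons, hl3, mul_inv_cancel_left]

theorem even : EvenS := by
  intro n g hg
  obtain ⟨l, h1, h2, h3⟩ := even_aux g.support.card g le_rfl hg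
  refine ⟨l, h1.trans ?_, h2, h3⟩
  have := card_le_univ g.support
  simpa using this

end Pool.Agent.SymDiam.H44
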