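import Pool.Agent.Lib.MP_7b6720_al.INV.H44.Tup

set_option autoImplicit false

/-!
# FIN: from one short three-cycle to the whole group
-/

namespace Pool.Agent.SymDiam.H44

open Equiv Finset

/-- description of a three-cycle -/
theorem three_desc {n : ℕ} (c : Perm (Fin n)) (hc : c.IsThreeCycle) :
    ∃ i, c i ≠ i ∧ c (c i) ≠ i ∧ c (c i) ≠ c i ∧ c (c (c i)) = i ∧
      ∀ x, x ≠ i → x ≠ c i → x ≠ c (c i) → c x = x := by
  have h3 := _root_.card_support_eq_three_iff.mpr hc
  have hord := hc.orderOf
  have hne : c ≠ 1 := by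
    intro h; rw [h] at h3; simp at h3
  have hex : ∃ a, c a ≠ a := by
    by_contra hcc
    push Not at hcc
    exact hne (Equiv.ext hcc)
  obtain ⟨i, hi⟩ := hex
  have hp : ∀ x, c (c (c x)) = x := by
    intro x
    have : c ^ 3 = 1 := by rw [← hord]; exact pow_orderOf_eq_one c
    have h2 : (c ^ 3) x = x := by rw [this]; rfl
    simpa [pow_succ, Perm.mul_apply] using h2
  have h2 : c (c i) ≠ i := by
    intro h
    apply hi
    have := hp i
    rw [h] at this
    exact this
  have h4 : c (c i) ≠ c i := fun h => hi (c.injective h)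
  refine ⟨i, hi, h2, h4, hp i, ?_⟩
  intro x hx1 hx2 hx3
  by_contra hx
  have hsub : ({x, i, c i, c (c i)} : Finset (Fin n)) ⊆ c.support := by
    intro y hy
    simp only [mem_insert, mem_singleton] at hy
    rw [Perm.mem_support]
    rcases hy with rfl | rfl | rfl | rfl
    · exact hx
    · exact hi
    · exact h4
    · rw [hp i]; exact h2.symm
  have hcd : ({x, i, c i, c (c i)} : Finset (Fin n)).card = 4 := by
    rw [card_insert_of_notMem (by simp [hx1, hx2, hx3]),
      card_insert_of_notMem (by simp [hi.symm, h2.symm]),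
      card_insert_of_notMem (by simp [h4.symm]), card_singleton]
  have := card_le_card hsub
  omega

theorem conj_three {n : ℕ} {A : Set (Perm (Fin n))} {l R : ℕ} {c : Perm (Fin n)}
    (hc : c.IsThreeCycle) (hcl : InBall A l c)
    (hR : ∀ e e' : Fin 3 ↪ Fin n, ∃ h, InBall A R h ∧ Maps e e' h)
    (y : Perm (Fin n)) (hy : y.IsThreeCycle) : InBall A (l + 2 * R) y := by
  obtain ⟨a, a1, a2, a3, a4, a5⟩ := three_desc c hc
  obtain ⟨i, i1, i2, i3, i4, i5⟩ := three_desc y hy
  obtain ⟨h, hh, hm⟩ := hR (tri i (y i) (y (y i)) i1.symm i2.symm i3.symm)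
    (tri a (c a) (c (c a)) a1.symm a2.symm a3.symm)
  rw [maps_tri] at hm
  obtain ⟨m0, m1, m2⟩ := hm
  have key : y = cj c h := by
    apply Equiv.ext
    intro x
    unfold cj
    rw [Perm.mul_apply, Perm.mul_apply, Perm.eq_inv_iff_eq]
    by_cases hx0 : x = i
    · rw [hx0, m0, m1]
    by_cases hx1 : x = y i
    · rw [hx1, m1, m2]
    by_cases hx2 : x = y (y i)
    · rw [hx2, m2, a4, i4, m0]
    · rw [i5 x hx0 hx1 hx2, a5 (h x)]
      · intro hh'; apply hx0; apply h.injective; rw [hh', m0]
      · intro hh'; apply hx1; apply h.injective; rw [hh', m1]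
      · intro hh'; apply hx2; apply h.injective; rw [hh', m2]
  rw [key]
  exact hcl.cj hh

theorem fin (heven : EvenS) : FinS := by
  intro n A l R c hA hc hcl hR g hg
  have hEv : ∀ g ∈ alternatingGroup (Fin n), InBall A (n * (l + 2 * R)) g := by
    intro g hg
    obtain ⟨L, h1, h2, h3⟩ := heven n g hg
    have := InBall.list_prod (A := A) (r := l + 2 * R) (l := L)
      (fun y hy => conj_three hc hcl hR y (h2 y hy))
    rw [h3] at this
    exact this.mono (Nat.mul_le_mul_right _ h1)
  by_cases hev : g ∈ alternatingGroup (Fin n)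
  · exact (hEv g hev).mono (Nat.le_succ _)
  · -- an odd generator
    have hodd : ∃ s ∈ A, s ∉ alternatingGroup (Fin n) := by
      by_contra hcon
      push Not at hcon
      have : Subgroup.closure A ≤ alternatingGroup (Fin n) := by
        rw [Subgroup.closure_le]
        exact hcon
      exact hev (this hg)
    obtain ⟨s, hs, hso⟩ := hodd
    have hsg : Perm.sign g = -1 := by
      rw [Perm.mem_alternatingGroup] at hev
      rcases Int.units_eq_one_or (Perm.sign g) with h | h
      · exact absurd h hev
      · exact h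
    have hss : Perm.sign s = -1 := by
      rw [Perm.mem_alternatingGroup] at hso
      rcases Int.units_eq_one_or (Perm.sign s) with h | h
      · exact absurd h hso
      · exact h
    have hprod : s⁻¹ * g ∈ alternatingGroup (Fin n) := by
      rw [Perm.mem_alternatingGroup, map_mul, map_inv, hsg, hss]
      decide
    have h1 := (InBall.of_mem hs).mul (hEv _ hprod)
    rw [mul_inv_cancel_left] at h1
    exact h1.mono (by omega)

end Pool.Agent.SymDiam.H44
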