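import Pool.Agent.Lib.MP_7b6720_al.INV.Iface

set_option autoImplicit false

/-!
# SUPP: the support of a commutator
-/

namespace Pool.Agent.SymDiam.H44

open Equiv Finset

theorem ais {n : ℕ} (u : Perm (Fin n)) (x : Fin n) : u (u⁻¹ x) = x := Equiv.apply_symm_apply u x

theorem ias {n : ℕ} (u : Perm (Fin n)) (x : Fin n) : u⁻¹ (u x) = x := Equiv.symm_apply_apply u x

theorem supp_sub {n : ℕ} (u v : Perm (Fin n)) :
    (u * v * u⁻¹ * v⁻¹).support ⊆ (u.support ∩ v.support) ∪
      ((u.support ∩ v.support).image u ∪ (u.support ∩ v.support).image v) := by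
  intro x hx
  rw [Perm.mem_support] at hx
  by_contra hc
  simp only [mem_union, mem_image, mem_inter, Perm.mem_support, not_or, not_exists, not_and]
    at hc
  obtain ⟨h1, h2, h3⟩ := hc
  apply hx
  simp only [Perm.mul_apply]
  -- h1 : u x ≠ x → v x = x
  by_cases hy : v (v⁻¹ x) = v⁻¹ x
  · have hvx : v⁻¹ x = x := by
      rw [← hy]; exact ais v x
    have hvx' : v x = x := by
      rw [hvx] at hy; exact hy
    rw [hvx]
    by_cases hz : v (u⁻¹ x) = u⁻¹ x
    · rw [hz]; exact ais u x
    · by_cases hu : u (u⁻¹ x) = u⁻¹ x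
      · have hux : u⁻¹ x = x := by
          rw [← hu]; exact ais u x
        rw [hux] at hz
        exact absurd hvx' hz
      · exact absurd (ais u x) (h2 (u⁻¹ x) ⟨hu, hz⟩)
  · by_cases hu : u (v⁻¹ x) = v⁻¹ x
    · have hu' : u⁻¹ (v⁻¹ x) = v⁻¹ x := by
        rw [Perm.inv_eq_iff_eq]; exact hu.symm
      rw [hu', ais]
      by_contra hux
      have hvx := h1 hux
      apply hy
      simp only [ais]
      rw [Perm.eq_inv_iff_eq]
      exact not_not.mp hvx
    · exact absurd (ais v x) (h3 (v⁻¹ x) ⟨hu, hy⟩)

theorem supp : SuppS := by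
  intro n u v
  have hsub := supp_sub u v
  have hcard : (u * v * u⁻¹ * v⁻¹).support.card ≤ 3 * (u.support ∩ v.support).card := by
    refine (card_le_card hsub).trans ?_
    refine (card_union_le _ _).trans ?_
    have h1 := card_union_le ((u.support ∩ v.support).image u) ((u.support ∩ v.support).image v)
    have h2 : ((u.support ∩ v.support).image u).card ≤ (u.support ∩ v.support).card :=
      card_image_le
    have h3 : ((u.support ∩ v.support).image v).card ≤ (u.support ∩ v.support).card :=
      card_image_le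
    omega
  refine ⟨hcard, ?_⟩
  intro h1
  obtain ⟨a, ha⟩ := card_eq_one.mp h1
  have hau : u a ≠ a := by
    have : a ∈ u.support ∩ v.support := by rw [ha]; exact mem_singleton_self a
    exact Perm.mem_support.mp (mem_inter.mp this).1
  have hav : v a ≠ a := by
    have : a ∈ u.support ∩ v.support := by rw [ha]; exact mem_singleton_self a
    exact Perm.mem_support.mp (mem_inter.mp this).2
  have hone : ∀ x, u x ≠ x → v x ≠ x → x = a := by
    intro x hx hx'
    have : x ∈ u.support ∩ v.support :=
      mem_inter.mpr ⟨Perm.mem_support.mpr hx, Perm.mem_support.mpr hx'⟩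
    rw [ha] at this
    exact mem_singleton.mp this
  -- basic facts
  have hu1 : v (u a) = u a := by
    by_contra hh
    exact hau (hone (u a) (fun h => hau (u.injective h)) hh)
  have hv1 : u (v a) = v a := by
    by_contra hh
    exact hav (hone (v a) hh (fun h => hav (v.injective h)))
  have hui : u⁻¹ a ≠ a := by
    intro h; apply hau; rw [Perm.inv_eq_iff_eq] at h; exact h.symm
  have hvi : v⁻¹ a ≠ a := by
    intro h; apply hav; rw [Perm.inv_eq_iff_eq] at h; exact h.symm
  have hu2 : v (u⁻¹ a) = u⁻¹ a := by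
    by_contra hh
    exact hui (hone (u⁻¹ a) (fun h => hui (by
      rw [ais] at h; exact h.symm)) hh)
  have hv2 : u (v⁻¹ a) = v⁻¹ a := by
    by_contra hh
    exact hvi (hone (v⁻¹ a) hh (fun h => hvi (by
      rw [ais] at h; exact h.symm)))
  have e1 : (u * v * u⁻¹ * v⁻¹) (v a) = a := by
    simp only [Perm.mul_apply, ias]
    rw [hu2, ais]
  have e2 : (u * v * u⁻¹ * v⁻¹) a = u a := by
    simp only [Perm.mul_apply]
    have : u⁻¹ (v⁻¹ a) = v⁻¹ a := by rw [Perm.inv_eq_iff_eq]; exact hv2.symm
    rw [this, ais]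
  have e3 : (u * v * u⁻¹ * v⁻¹) (u a) = v a := by
    simp only [Perm.mul_apply]
    have : v⁻¹ (u a) = u a := by rw [Perm.inv_eq_iff_eq]; exact hu1.symm
    rw [this, ias, hv1]
  have huv : u a ≠ v a := by
    intro h
    rw [h] at hu1
    exact hav (v.injective hu1)
  rw [← _root_.card_support_eq_three_iff]
  have hlow : ({a, u a, v a} : Finset (Fin n)) ⊆ (u * v * u⁻¹ * v⁻¹).support := by
    intro x hx
    simp only [mem_insert, mem_singleton] at hx
    rw [Perm.mem_support]
    rcases hx with rfl | rfl | rfl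
    · rw [e2]; exact hau
    · rw [e3]; exact huv.symm
    · rw [e1]; exact hav.symm
  have hc3 : ({a, u a, v a} : Finset (Fin n)).card = 3 := by
    rw [card_eq_three]
    exact ⟨a, u a, v a, hau.symm, hav.symm, huv, rfl⟩
  have := card_le_card hlow
  omega

end Pool.Agent.SymDiam.H44
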