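import Pool.Agent.Lib.MP_7b6720_al.INV.H44.Tup

set_option autoImplicit false

/-!
# THREE: from small support to a three-cycle
-/

namespace Pool.Agent.SymDiam.H44

open Equiv Finset

theorem desc_two (n : ℕ) (hn : 1 ≤ n) : ((n.descFactorial 2 : ℕ) : ℝ) = (n : ℝ) * ((n : ℝ) - 1) := by
  rw [show n.descFactorial 2 = (n - 1) * (n * 1) from rfl]
  push_cast [Nat.cast_sub hn]
  ring

theorem desc_one (n : ℕ) : ((n.descFactorial 1 : ℕ) : ℝ) = (n : ℝ) := by
  rw [Nat.descFactorial_one]

theorem desc_three (n : ℕ) (hn : 2 ≤ n) :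
    ((n.descFactorial 3 : ℕ) : ℝ) = (n : ℝ) * ((n : ℝ) - 1) * ((n : ℝ) - 2) := by
  rw [show n.descFactorial 3 = (n - 2) * ((n - 1) * (n * 1)) from rfl]
  push_cast [Nat.cast_sub hn, Nat.cast_sub (show 1 ≤ n by omega)]
  ring

theorem three (hs : SuppS) : ThreeS := by
  intro n hn W hW z hz h4
  have hn' : (100 : ℝ) ≤ (n : ℝ) := by exact_mod_cast hn
  have hex : ∃ a, z a ≠ a := by
    by_contra hc
    push Not at hc
    exact hz (Equiv.ext hc)
  obtain ⟨a, ha⟩ := hex
  have haS : a ∈ z.support := Perm.mem_support.mpr ha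
  set s : ℝ := (z.support.card : ℝ) with hsdef
  have hs4 : 4 * s ^ 2 ≤ (n : ℝ) := by
    rw [hsdef]; exact_mod_cast h4
  have hs0 : 0 ≤ s := by rw [hsdef]; positivity
  have hn0 : (0 : ℝ) < n := by linarith
  have hn1 : (0 : ℝ) < (n : ℝ) - 1 := by linarith
  have hlow := hW.lower 1 (by norm_num) (sing a) (sing a)
  rw [desc_one] at hlow
  have hpos : 0 < wt W (sing a) (sing a) := by
    refine lt_of_lt_of_le ?_ hlow
    apply div_pos _ hn0
    rw [sub_pos, div_lt_one hn0]; linarith
  set T : ℝ := s ^ 2 * ((n : ℝ) + 1) / ((n : ℝ) - 1) ^ 2 with hT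
  have hT0 : 0 ≤ T := by rw [hT]; positivity
  have hT1 : T < 1 := by
    rw [hT, div_lt_one (by positivity)]
    nlinarith [mul_le_mul_of_nonneg_right hs4 (show (0 : ℝ) ≤ (n : ℝ) + 1 by linarith)]
  have hpair : ∀ x ∈ z.support.erase a, ∀ y ∈ z.support,
      (∑ h, if Maps (sing a) (sing a) h ∧ h x = y then W h else 0) ≤
        (1 + 1 / (n : ℝ)) / ((n : ℝ) * ((n : ℝ) - 1)) := by
    intro x hx y _
    have hxa : x ≠ a := (mem_erase.mp hx).1
    by_cases hya : y = a
    · have : (∑ h, if Maps (sing a) (sing a) h ∧ h x = y then W h else 0) = 0 := by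
        refine sum_eq_zero fun h _ => ?_
        rw [if_neg]
        rintro ⟨h1, h2⟩
        rw [maps_sing] at h1
        apply hxa
        apply h.injective
        rw [h1, h2, hya]
      rw [this]
      positivity
    · have h1 := hW.upper 2 (by norm_num) (duo a x hxa.symm) (duo a y (Ne.symm hya))
      rw [desc_two n (by omega)] at h1
      refine le_trans (le_of_eq ?_) h1
      unfold wt
      refine sum_congr rfl fun h _ => ?_
      simp only [maps_sing, maps_duo]
  have hsum : (∑ h, if Maps (sing a) (sing a) h then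
      W h * (((z.support.erase a).filter fun x => h x ∈ z.support).card : ℝ) else 0) ≤
      wt W (sing a) (sing a) * T := by
    rw [sum_count W (fun h => Maps (sing a) (sing a) h)]
    have h1 : (∑ x ∈ z.support.erase a, ∑ y ∈ z.support,
        ∑ h, if Maps (sing a) (sing a) h ∧ h x = y then W h else 0) ≤
        ∑ x ∈ z.support.erase a, ∑ y ∈ z.support,
          (1 + 1 / (n : ℝ)) / ((n : ℝ) * ((n : ℝ) - 1)) :=
      sum_le_sum fun x hx => sum_le_sum fun y hy => hpair x hx y hy
    refine h1.trans ?_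
    rw [sum_const, sum_const, nsmul_eq_mul, nsmul_eq_mul]
    have h2 : ((z.support.erase a).card : ℝ) ≤ s := by
      rw [hsdef]
      exact_mod_cast card_le_card (erase_subset _ _)
    have h3 : (1 - 1 / (n : ℝ)) / (n : ℝ) * T ≤ wt W (sing a) (sing a) * T :=
      mul_le_mul_of_nonneg_right hlow hT0
    refine le_trans ?_ h3
    have h4' : (1 - 1 / (n : ℝ)) / (n : ℝ) * T =
        s * (s * ((1 + 1 / (n : ℝ)) / ((n : ℝ) * ((n : ℝ) - 1)))) := by
      rw [hT]
      field_simp
    rw [h4']
    have h5 : 0 ≤ (1 + 1 / (n : ℝ)) / ((n : ℝ) * ((n : ℝ) - 1)) := by positivity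
    rw [← hsdef]
    exact mul_le_mul_of_nonneg_right h2 (mul_nonneg hs0 h5)
  obtain ⟨h, hWh, hm, hle⟩ := exists_le_of_avg hW (sing a) (sing a) hpos
    (fun h => (((z.support.erase a).filter fun x => h x ∈ z.support).card : ℝ)) T hsum
  refine ⟨h, hWh, ?_⟩
  have hcard : ((z.support.erase a).filter fun x => h x ∈ z.support).card = 0 := by
    have h1 : (((z.support.erase a).filter fun x => h x ∈ z.support).card : ℝ) < 1 :=
      lt_of_le_of_lt hle hT1
    have h2 : ((z.support.erase a).filter fun x => h x ∈ z.support).card < 1 := by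
      exact_mod_cast h1
    omega
  rw [maps_sing] at hm
  have hI : z.support ∩ (cj z h).support = {a} := by
    ext x
    rw [mem_inter, support_cj, mem_singleton]
    constructor
    · rintro ⟨h1, h2⟩
      by_contra hxa
      have : x ∈ (z.support.erase a).filter fun x => h x ∈ z.support :=
        mem_filter.mpr ⟨mem_erase.mpr ⟨hxa, h1⟩, h2⟩
      rw [card_eq_zero.mp hcard] at this
      exact absurd this (notMem_empty x)
    · rintro rfl
      exact ⟨haS, by rw [hm]; exact haS⟩
  exact (hs n z (cj z h)).2 (by rw [hI, card_singleton])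

end Pool.Agent.SymDiam.H44
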