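import Pool.Agent.Lib.MP_7b6720_al.INV.Ball

set_option autoImplicit false

/-!
# Embeddings of small tuples, and the first moment of the overlap of supports
-/

namespace Pool.Agent.SymDiam.H44

open Equiv Finset

/-- the embedding of a triple of distinct points -/
def tri {n : ℕ} (a b c : Fin n) (hab : a ≠ b) (hac : a ≠ c) (hbc : b ≠ c) : Fin 3 ↪ Fin n :=
  ⟨![a, b, c], by
    intro i j hij
    fin_cases i <;> fin_cases j <;> simp_all [Matrix.cons_val_zero, Matrix.cons_val_one]⟩

theorem maps_tri {n : ℕ} (a b c a' b' c' : Fin n) (hab : a ≠ b) (hac : a ≠ c) (hbc : b ≠ c)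
    (hab' : a' ≠ b') (hac' : a' ≠ c') (hbc' : b' ≠ c') (h : Perm (Fin n)) :
    Maps (tri a b c hab hac hbc) (tri a' b' c' hab' hac' hbc') h ↔
      h a = a' ∧ h b = b' ∧ h c = c' := by
  constructor
  · intro hm
    exact ⟨hm 0, hm 1, hm 2⟩
  · rintro ⟨h0, h1, h2⟩ i
    fin_cases i
    · exact h0
    · exact h1
    · exact h2

/-- the embedding of one point -/
def sing {n : ℕ} (a : Fin n) : Fin 1 ↪ Fin n :=
  ⟨fun _ => a, fun i j _ => Subsingleton.elim i j⟩

theorem maps_sing {n : ℕ} (a a' : Fin n) (h : Perm (Fin n)) :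
    Maps (sing a) (sing a') h ↔ h a = a' := by
  constructor
  · intro hm; exact hm 0
  · intro hm i; exact hm

/-- the embedding of a pair of distinct points -/
def duo {n : ℕ} (a b : Fin n) (hab : a ≠ b) : Fin 2 ↪ Fin n :=
  ⟨![a, b], by
    intro i j hij
    fin_cases i <;> fin_cases j <;> simp_all [Matrix.cons_val_zero, Matrix.cons_val_one]⟩

theorem maps_duo {n : ℕ} (a b a' b' : Fin n) (hab : a ≠ b) (hab' : a' ≠ b')
    (h : Perm (Fin n)) :
    Maps (duo a b hab) (duo a' b' hab') h ↔ h a = a' ∧ h b = b' := by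
  constructor
  · intro hm
    exact ⟨hm 0, hm 1⟩
  · rintro ⟨h0, h1⟩ i
    fin_cases i
    · exact h0
    · exact h1

theorem support_cj {n : ℕ} (z h : Perm (Fin n)) (x : Fin n) :
    x ∈ (cj z h).support ↔ h x ∈ z.support := by
  rw [Perm.mem_support, Perm.mem_support]
  unfold cj
  rw [Perm.mul_apply, Perm.mul_apply, not_iff_not, Perm.inv_eq_iff_eq]

/-- a sum over `h` of `W h` times the number of points of `X` mapped into `Y` -/
theorem sum_count {n : ℕ} (W : Perm (Fin n) → ℝ) (P : Perm (Fin n) → Prop) [DecidablePred P]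
    (X Y : Finset (Fin n)) :
    (∑ h, if P h then W h * ((X.filter fun x => h x ∈ Y).card : ℝ) else 0) =
      ∑ x ∈ X, ∑ y ∈ Y, ∑ h, if P h ∧ h x = y then W h else 0 := by
  have h1 : ∀ h : Perm (Fin n), (if P h then W h * ((X.filter fun x => h x ∈ Y).card : ℝ) else 0)
      = ∑ x ∈ X, ∑ y ∈ Y, if P h ∧ h x = y then W h else 0 := by
    intro h
    by_cases hp : P h
    · simp only [hp, true_and, if_true]
      rw [card_filter]
      push_cast
      rw [mul_sum]
      refine sum_congr rfl fun x _ => ?_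
      rw [sum_ite_eq]
      split_ifs <;> simp
    · simp [hp]
  simp_rw [h1]
  rw [sum_comm]
  refine sum_congr rfl fun x _ => ?_
  rw [sum_comm]

end Pool.Agent.SymDiam.H44
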